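import Pool.Agent.H23.MPr.Mech

set_option autoImplicit false

/-!
# Rings with a one-dimensional component
-/

open IsLocalRing PowerSeries

namespace Pool.Agent.H23.MPr

universe u

section

variable {S : Type u} [CommRing S] {P₁ P₂ : Ideal S}

lemma min_glue (h1 : P₁.IsPrime) (h2 : P₂.IsPrime) (h12 : ¬ P₁ ≤ P₂) (h21 : ¬ P₂ ≤ P₁) :
    minimalPrimes (S ⧸ P₁ ⊓ P₂) =
      {P₁.map (Ideal.Quotient.mk (P₁ ⊓ P₂)), P₂.map (Ideal.Quotient.mk (P₁ ⊓ P₂))} := by
  set f := Ideal.Quotient.mk (P₁ ⊓ P₂) with hf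
  have hs : Function.Surjective f := Ideal.Quotient.mk_surjective
  have hk : RingHom.ker f = P₁ ⊓ P₂ := Ideal.mk_ker
  have hc1 : (P₁.map f).comap f = P₁ := by
    rw [Ideal.comap_map_of_surjective _ hs, ← RingHom.ker_eq_comap_bot, hk,
      sup_eq_left.mpr inf_le_left]
  have hc2 : (P₂.map f).comap f = P₂ := by
    rw [Ideal.comap_map_of_surjective _ hs, ← RingHom.ker_eq_comap_bot, hk,
      sup_eq_left.mpr inf_le_right]
  have hp1 : (P₁.map f).IsPrime := Ideal.map_isPrime_of_surjective hs (by rw [hk]; exact inf_le_left)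
  have hp2 : (P₂.map f).IsPrime := Ideal.map_isPrime_of_surjective hs (by rw [hk]; exact inf_le_right)
  have hle : ∀ q : Ideal (S ⧸ P₁ ⊓ P₂), q.IsPrime → P₁.map f ≤ q ∨ P₂.map f ≤ q := by
    intro q hq
    have h3 : P₁ ⊓ P₂ ≤ q.comap f := hk.symm.le.trans (Ideal.ker_le_comap f)
    rcases (hq.comap f).inf_le.mp h3 with h | h
    · exact Or.inl (Ideal.map_le_iff_le_comap.mpr h)
    · exact Or.inr (Ideal.map_le_iff_le_comap.mpr h)
  ext q
  constructor
  · intro hq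
    rcases hle q hq.1.1 with h | h
    · exact Or.inl (le_antisymm (hq.2 ⟨hp1, bot_le⟩ h) h)
    · exact Or.inr (le_antisymm (hq.2 ⟨hp2, bot_le⟩ h) h)
  · rintro (rfl | rfl)
    · refine ⟨⟨hp1, bot_le⟩, fun r hr hle' => ?_⟩
      rcases hle r hr.1 with h | h
      · exact h
      · exact absurd ((hc2.symm.le.trans (Ideal.comap_mono (h.trans hle'))).trans hc1.le) h21
    · refine ⟨⟨hp2, bot_le⟩, fun r hr hle' => ?_⟩
      rcases hle r hr.1 with h | h
      · exact absurd ((hc1.symm.le.trans (Ideal.comap_mono (h.trans hle'))).trans hc2.le) h12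
      · exact h

/-- the quotients -/
noncomputable def quotEquiv {T : Type u} [CommRing T] (g : S →+* T) (hg : Function.Surjective g)
    (I : Ideal S) (hI : I ≤ RingHom.ker g) :
    ((S ⧸ I) ⧸ (RingHom.ker g).map (Ideal.Quotient.mk I)) ≃+* T :=
  (DoubleQuot.quotQuotEquivQuotOfLE hI).trans (RingHom.quotientKerEquivOfSurjective hg)

lemma reduced_glue (h1 : P₁.IsPrime) (h2 : P₂.IsPrime) : IsReduced (S ⧸ P₁ ⊓ P₂) := by
  rw [← Ideal.isRadical_iff_quotient_reduced]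
  exact h1.isRadical.inf h2.isRadical

lemma nzd_glue (h1 : P₁.IsPrime) (h2 : P₂.IsPrime) {x : S} (hx1 : x ∉ P₁) (hx2 : x ∉ P₂) :
    Ideal.Quotient.mk (P₁ ⊓ P₂) x ∈ nonZeroDivisors (S ⧸ P₁ ⊓ P₂) := by
  rw [mem_nonZeroDivisors_iff_right]
  intro r hr
  obtain ⟨s, rfl⟩ := Ideal.Quotient.mk_surjective r
  rw [← map_mul, Ideal.Quotient.eq_zero_iff_mem] at hr
  rw [Ideal.Quotient.eq_zero_iff_mem]
  exact ⟨(h1.mem_or_mem hr.1).resolve_right hx1, (h2.mem_or_mem hr.2).resolve_right hx2⟩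

end

/-- Every Noetherian local domain of dimension at least two is one of the two components of a
Noetherian local ring, the other component of which is a line. -/
theorem glue (D : Type u) [CommRing D] [IsDomain D] [IsNoetherianRing D] [IsLocalRing D]
    (hD : 2 ≤ ringKrullDim D) :
    ∃ (R : Type u) (_ : CommRing R) (_ : IsNoetherianRing R) (_ : IsLocalRing R)
      (p₁ p₂ : Ideal R), IsReduced R ∧ minimalPrimes R = {p₁, p₂} ∧
      Nonempty (R ⧸ p₁ ≃+* D) ∧ Nonempty (R ⧸ p₂ ≃+* (ResidueField D)⟦X⟧) ∧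
      ringKrullDim (R ⧸ p₂) = 1 ∧ 2 ≤ ringKrullDim R ∧
      ∃ x ∈ maximalIdeal R, x ∈ nonZeroDivisors R := by
  let φ₁ : D⟦X⟧ →+* D := PowerSeries.constantCoeff
  let φ₂ : D⟦X⟧ →+* (ResidueField D)⟦X⟧ := PowerSeries.map (residue D)
  have hs1 : Function.Surjective φ₁ := fun a => ⟨PowerSeries.C a, by simp [φ₁]⟩
  have hs2 : Function.Surjective φ₂ := PowerSeries.map_surjective _ residue_surjective
  have hp1 : (RingHom.ker φ₁).IsPrime := RingHom.ker_isPrime φ₁
  have hp2 : (RingHom.ker φ₂).IsPrime := RingHom.ker_isPrime φ₂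
  obtain ⟨a, ha, ha0⟩ : ∃ a ∈ maximalIdeal D, a ≠ 0 := by
    by_contra h
    push Not at h
    have h3 : maximalIdeal D = ⊥ := (Submodule.eq_bot_iff _).mpr h
    have h4 := IsLocalRing.maximalIdeal_height_eq_ringKrullDim (R := D)
    rw [h3, Ideal.height_bot] at h4
    rw [← h4] at hD
    exact absurd (WithBot.coe_le_coe.mp hD) (by decide)
  have hX1 : (X : D⟦X⟧) ∈ RingHom.ker φ₁ := by simp [φ₁, RingHom.mem_ker]
  have hX2 : (X : D⟦X⟧) ∉ RingHom.ker φ₂ := by
    rw [RingHom.mem_ker]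
    simp [φ₂, X_ne_zero]
  have hC1 : (PowerSeries.C a : D⟦X⟧) ∉ RingHom.ker φ₁ := by
    rw [RingHom.mem_ker]
    simpa [φ₁] using ha0
  have hC2 : (PowerSeries.C a : D⟦X⟧) ∈ RingHom.ker φ₂ := by
    rw [RingHom.mem_ker]
    have : residue D a = 0 := (residue_eq_zero_iff a).mpr ha
    simp [φ₂, this]
  have h12 : ¬ RingHom.ker φ₁ ≤ RingHom.ker φ₂ := fun h => hX2 (h hX1)
  have h21 : ¬ RingHom.ker φ₂ ≤ RingHom.ker φ₁ := fun h => hC1 (h hC2)
  have hne : RingHom.ker φ₁ ⊓ RingHom.ker φ₂ ≠ ⊤ := fun h => hp1.ne_top (top_le_iff.mp (h ▸ inf_le_left))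
  have : Nontrivial (D⟦X⟧ ⧸ RingHom.ker φ₁ ⊓ RingHom.ker φ₂) := Ideal.Quotient.nontrivial_iff.mpr hne
  have hloc : IsLocalRing (D⟦X⟧ ⧸ RingHom.ker φ₁ ⊓ RingHom.ker φ₂) :=
    IsLocalRing.of_surjective' _ Ideal.Quotient.mk_surjective
  let e1 := quotEquiv φ₁ hs1 (RingHom.ker φ₁ ⊓ RingHom.ker φ₂) inf_le_left
  let e2 := quotEquiv φ₂ hs2 (RingHom.ker φ₁ ⊓ RingHom.ker φ₂) inf_le_right
  refine ⟨D⟦X⟧ ⧸ RingHom.ker φ₁ ⊓ RingHom.ker φ₂, inferInstance, inferInstance, hloc, _, _,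
    reduced_glue hp1 hp2, min_glue hp1 hp2 h12 h21, ⟨e1⟩, ⟨e2⟩, ?_, ?_, ?_⟩
  · rw [ringKrullDim_eq_of_ringEquiv e2]
    exact IsDiscreteValuationRing.ringKrullDim_eq_one _
  · refine hD.trans ?_
    rw [← ringKrullDim_eq_of_ringEquiv e1]
    exact ringKrullDim_quotient_le _
  · refine ⟨Ideal.Quotient.mk _ (X + PowerSeries.C a), ?_, nzd_glue hp1 hp2 ?_ ?_⟩
    · rw [IsLocalRing.mem_maximalIdeal, mem_nonunits_iff]
      intro hu
      have h3 := hu.map (Ideal.Quotient.factor (show RingHom.ker φ₁ ⊓ RingHom.ker φ₂ ≤ RingHom.ker φ₁ from inf_le_left))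
      rw [Ideal.Quotient.factor_mk] at h3
      have h4 := h3.map (RingHom.quotientKerEquivOfSurjective hs1).toRingHom
      have h5 : IsUnit (φ₁ (X + PowerSeries.C a)) := h4
      simp only [φ₁, map_add, PowerSeries.constantCoeff_X, zero_add, PowerSeries.constantCoeff_C] at h5
      exact (mem_nonunits_iff.mp ((IsLocalRing.mem_maximalIdeal a).mp ha)) h5
    · intro h
      have h3 := (RingHom.ker φ₁).sub_mem h hX1
      rw [add_sub_cancel_left] at h3
      exact hC1 h3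
    · intro h
      have h3 := (RingHom.ker φ₂).sub_mem h hC2
      rw [add_sub_cancel_right] at h3
      exact hX2 h3

lemma res_equiv {R : Type u} [CommRing R] [IsLocalRing R] {k : Type u} [Field k] (g : R →+* k)
    (hg : Function.Surjective g) : Nonempty (ResidueField R ≃+* k) := by
  have h1 : (RingHom.ker g).IsMaximal := RingHom.ker_isMaximal_of_surjective g hg
  have h2 := IsLocalRing.eq_maximalIdeal h1
  exact ⟨(Ideal.quotEquivOfEq h2.symm).trans (RingHom.quotientKerEquivOfSurjective hg)⟩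

/-- power series in two variables -/
lemma dim_two (k : Type u) [Field k] : 2 ≤ ringKrullDim (k⟦X⟧⟦X⟧) := by
  have h1 := ringKrullDim_succ_le_ringKrullDim_powerseries (R := k⟦X⟧)
  rw [IsDiscreteValuationRing.ringKrullDim_eq_one k⟦X⟧] at h1
  exact h1

lemma surj_two {R k : Type u} [CommRing R] [Field k] {p : Ideal R}
    (e : R ⧸ p ≃+* k⟦X⟧⟦X⟧) : ∃ g : R →+* k, Function.Surjective g := by
  refine ⟨(PowerSeries.constantCoeff.comp PowerSeries.constantCoeff).comp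
    (e.toRingHom.comp (Ideal.Quotient.mk p)), ?_⟩
  intro a
  obtain ⟨r, hr⟩ := Ideal.Quotient.mk_surjective (e.symm (PowerSeries.C (PowerSeries.C a)))
  refine ⟨r, ?_⟩
  have h1 : (e.toRingHom.comp (Ideal.Quotient.mk p)) r = PowerSeries.C (PowerSeries.C a) := by
    show e (Ideal.Quotient.mk p r) = _
    rw [hr, RingEquiv.apply_symm_apply]
  rw [RingHom.comp_apply, h1]
  simp

end Pool.Agent.H23.MPr
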