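import Pool.Agent.H23.MPr.PdOne

set_option autoImplicit false

/-!
# Localizations
-/

open CategoryTheory IsLocalRing

namespace Pool.Agent.H23.MPr

universe u

/-- Every minimal prime of the ring is contained in a minimal prime of `N`. -/
def Covered (R : Type u) [CommRing R] (N : Type u) [AddCommGroup N] [Module R N] : Prop :=
  ∀ p ∈ minimalPrimes R, ∃ q ∈ (Module.annihilator R N).minimalPrimes, p ≤ q

/-- If `A` is a Noetherian local ring with a module of projective dimension at most one which is
not covered, then some localization of `A` has a nonunit nonzerodivisor, a minimal prime of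
dimension one, and dimension at least two. -/
theorem exists_loc {A : Type u} [CommRing A] [IsNoetherianRing A] [IsLocalRing A] (N : Type u)
    [AddCommGroup N] [Module A N] [Module.Finite A N] [Nontrivial N]
    (hN : HasProjectiveDimensionLE (ModuleCat.of A N) 1) (hc : ¬ Covered A N) :
    ∃ (q : Ideal A) (_ : q.IsPrime),
      (∃ x ∈ nonZeroDivisors (Localization.AtPrime q), ¬ IsUnit x) ∧
      (∃ p ∈ minimalPrimes (Localization.AtPrime q),
        ringKrullDim (Localization.AtPrime q ⧸ p) = 1) ∧
      2 ≤ ringKrullDim (Localization.AtPrime q) := by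
  unfold Covered at hc
  push Not at hc
  obtain ⟨p, hp, hno⟩ := hc
  have hpP : p.IsPrime := hp.1.1
  rcases pd_one N hN with h | ⟨δ, hδm, hδ, hmin⟩
  · exact absurd le_rfl (hno p (h p hp))
  rw [hmin] at hno
  have hq := (cyclic_iff hp hδ).mp hno
  have hne : p ⊔ Ideal.span {δ} ≠ ⊤ := by
    intro h
    have h1 : p ⊔ Ideal.span {δ} ≤ maximalIdeal A := sup_le (IsLocalRing.le_maximalIdeal hpP.ne_top)
      (by rwa [Ideal.span_le, Set.singleton_subset_iff])
    exact (IsLocalRing.maximalIdeal.isMaximal A).ne_top (top_le_iff.mp (h ▸ h1))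
  obtain ⟨q, hqm⟩ := Ideal.nonempty_minimalPrimes hne
  have hqP : q.IsPrime := hqm.1.1
  have hpq : p ≤ q := le_sup_left.trans hqm.1.2
  have hδq : δ ∈ q := (le_sup_right.trans hqm.1.2) (Ideal.mem_span_singleton_self _)
  let B := Localization.AtPrime q
  let f := algebraMap A B
  have hfδ : f δ ∈ nonZeroDivisors B :=
    IsLocalization.map_nonZeroDivisors_le q.primeCompl B ⟨δ, hδ, rfl⟩
  have hfm : f δ ∈ maximalIdeal B := by
    have h1 : (maximalIdeal B).under A = q := Localization.AtPrime.under_maximalIdeal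
    have h2 : δ ∈ (maximalIdeal B).under A := by rw [h1]; exact hδq
    exact h2
  have hdisj : Disjoint (q.primeCompl : Set A) (p : Set A) := by
    rw [Set.disjoint_left]
    intro a ha hap
    exact ha (hpq hap)
  have hup : (p.map f).under A = p :=
    IsLocalization.under_map_of_isPrime_disjoint q.primeCompl B hpP hdisj
  have hp' : p.map f ∈ minimalPrimes B := by
    have h1 := IsLocalization.minimalPrimes_map q.primeCompl B (⊥ : Ideal A)
    rw [Ideal.map_bot] at h1
    show p.map f ∈ (⊥ : Ideal B).minimalPrimes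
    rw [h1, Set.mem_preimage, hup]
    exact hp
  have hmB : maximalIdeal B ∈ (p.map f ⊔ Ideal.span {f δ}).minimalPrimes := by
    have h1 := IsLocalization.minimalPrimes_map q.primeCompl B (p ⊔ Ideal.span {δ})
    rw [Ideal.map_sup, Ideal.map_span, Set.image_singleton] at h1
    rw [h1, Set.mem_preimage]
    have h2 : (maximalIdeal B).under A = q := Localization.AtPrime.under_maximalIdeal
    rw [h2]
    exact hqm
  have hnoeth : IsNoetherianRing B := IsLocalization.isNoetherianRing q.primeCompl B inferInstance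
  refine ⟨q, hqP, ⟨f δ, hfδ, (mem_nonunits_iff.mp ((IsLocalRing.mem_maximalIdeal _).mp hfm))⟩,
    ⟨p.map f, hp', ?_⟩, ?_⟩
  · have hpB : (p.map f).IsPrime := hp'.1.1
    have hnt : Nontrivial (B ⧸ p.map f) := Ideal.Quotient.nontrivial_iff.mpr hpB.ne_top
    have hlr : IsLocalRing (B ⧸ p.map f) := IsLocalRing.of_surjective' _ Ideal.Quotient.mk_surjective
    have h1 := ht_one hp' hfδ hmB
    have h2 : ((maximalIdeal B).map (Ideal.Quotient.mk (p.map f))).IsMaximal := by
      refine Ideal.IsMaximal.map_of_surjective_of_ker_le Ideal.Quotient.mk_surjective ?_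
      rw [Ideal.mk_ker]
      exact IsLocalRing.le_maximalIdeal hpB.ne_top
    rw [IsLocalRing.eq_maximalIdeal h2] at h1
    rw [← IsLocalRing.maximalIdeal_height_eq_ringKrullDim, h1]
    rfl
  · rw [IsLocalization.AtPrime.ringKrullDim_eq_height q (Localization.AtPrime q)]
    exact WithBot.coe_le_coe.mpr (hq q hqm).2

lemma two_le_of {A : Type u} [CommRing A] (p : Ideal A) (h1 : ringKrullDim (A ⧸ p) = 1)
    (h : ringKrullDim A ≠ 1) : 2 ≤ ringKrullDim A := by
  have h2 : 1 ≤ ringKrullDim A := h1 ▸ ringKrullDim_quotient_le p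
  have h3 : 1 < ringKrullDim A := lt_of_le_of_ne h2 (Ne.symm h)
  have h4 := (ENat.WithBot.add_one_le_iff (n := 1) (m := ringKrullDim A)).mpr (by simpa using h3)
  have h5 : (2 : WithBot ℕ∞) = ((1 : ℕ) : WithBot ℕ∞) + 1 := rfl
  rw [h5]
  exact h4

end Pool.Agent.H23.MPr
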