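import Mathlib

set_option autoImplicit false

/-!
# Minimal primes and modules of projective dimension at most one
-/

open CategoryTheory IsLocalRing

namespace Pool.Agent.H23.MPr

universe u

variable {R : Type u} [CommRing R]

lemma pd_le {x : R} (hx : x ∈ nonZeroDivisors R) :
    HasProjectiveDimensionLE (ModuleCat.of R (R ⧸ Ideal.span {x})) 1 := by
  let f : R →ₗ[R] R := LinearMap.toSpanSingleton R R x
  let g : R →ₗ[R] (R ⧸ Ideal.span {x}) := (Ideal.span {x}).mkQ
  have hfg : Function.Exact f g := by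
    rw [LinearMap.exact_iff, Submodule.ker_mkQ, LinearMap.range_toSpanSingleton]
  have hf : Function.Injective f := by
    rw [injective_iff_map_eq_zero]
    intro r hr
    exact (mem_nonZeroDivisors_iff_right.mp hx) r hr
  have hS := ModuleCat.shortComplex_shortExact
    (ShortComplex.moduleCatMk f g hfg.linearMap_comp_eq_zero) hfg hf (Submodule.mkQ_surjective _)
  have h1 : HasProjectiveDimensionLT (ModuleCat.of R R) 1 :=
    projective_iff_hasProjectiveDimensionLT_one.mp inferInstance
  exact hS.hasProjectiveDimensionLT_X₃ 1 h1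
    (hasProjectiveDimensionLT_of_ge (ModuleCat.of R R) 1 2 (by norm_num))

lemma notMem_min {p : Ideal R} (hp : p ∈ minimalPrimes R) {x : R} (hx : x ∈ nonZeroDivisors R) :
    x ∉ p := fun h => notMem_nonZeroDivisors_of_mem_mem_minimalPrimes h hp hx

/-- The mechanism. -/
theorem mech [IsNoetherianRing R] [IsLocalRing R] {p : Ideal R} (hp : p ∈ minimalPrimes R)
    (h1 : ringKrullDim (R ⧸ p) = 1) (h2 : 2 ≤ ringKrullDim R) {x : R}
    (hx : x ∈ nonZeroDivisors R) (q : Ideal R) (hq : q ∈ (Ideal.span {x}).minimalPrimes) :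
    ¬ p ≤ q := by
  intro hpq
  have hpP : p.IsPrime := hp.1.1
  have hqP : q.IsPrime := hq.1.1
  have hxq : x ∈ q := hq.1.2 (Ideal.mem_span_singleton_self _)
  have hq1 : q.height ≤ 1 := Ideal.height_le_one_of_isPrincipal_of_mem_minimalPrimes _ q hq
  have hk : Ring.KrullDimLE 1 (R ⧸ p) := Ring.krullDimLE_iff.mpr (by rw [h1]; rfl)
  have hqm : q.IsMaximal := by
    have hker : RingHom.ker (Ideal.Quotient.mk p) ≤ q := by rwa [Ideal.mk_ker]
    have hI : (q.map (Ideal.Quotient.mk p)).IsPrime :=
      Ideal.map_isPrime_of_surjective Ideal.Quotient.mk_surjective hker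
    have hcm : (q.map (Ideal.Quotient.mk p)).comap (Ideal.Quotient.mk p) = q := by
      rw [Ideal.comap_map_of_surjective _ Ideal.Quotient.mk_surjective,
        ← RingHom.ker_eq_comap_bot, Ideal.mk_ker, sup_eq_left.mpr hpq]
    rcases Ring.krullDimLE_one_iff.mp hk _ hI with h | h
    · exfalso
      have h3 : q.map (Ideal.Quotient.mk p) = ⊥ := by
        have := IsDomain.minimalPrimes_eq_singleton_bot (R ⧸ p)
        rw [this] at h
        exact h
      apply notMem_min hp hx
      rw [Ideal.map_eq_bot_iff_le_ker, Ideal.mk_ker] at h3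
      exact h3 hxq
    · rw [← hcm]
      exact Ideal.comap_isMaximal_of_surjective _ Ideal.Quotient.mk_surjective
  have hqe : q = maximalIdeal R := IsLocalRing.eq_maximalIdeal hqm
  rw [← IsLocalRing.maximalIdeal_height_eq_ringKrullDim, ← hqe] at h2
  have h3 : (2 : ℕ∞) ≤ q.height := by
    have h4 : ((2 : ℕ∞) : WithBot ℕ∞) ≤ (q.height : WithBot ℕ∞) := h2
    exact WithBot.coe_le_coe.mp h4
  exact absurd (h3.trans hq1) (by decide)

/-- the height modulo a minimal prime -/
lemma ht_one [IsNoetherianRing R] {p : Ideal R} (hp : p ∈ minimalPrimes R) {x : R}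
    (hx : x ∈ nonZeroDivisors R) {q : Ideal R} (hq : q ∈ (p ⊔ Ideal.span {x}).minimalPrimes) :
    (q.map (Ideal.Quotient.mk p)).height = 1 := by
  have hpP : p.IsPrime := hp.1.1
  have hqP : q.IsPrime := hq.1.1
  have hpq : p ≤ q := le_sup_left.trans hq.1.2
  have hxq : x ∈ q := (le_sup_right.trans hq.1.2) (Ideal.mem_span_singleton_self _)
  have hker : RingHom.ker (Ideal.Quotient.mk p) ≤ q := by rwa [Ideal.mk_ker]
  have hI : (q.map (Ideal.Quotient.mk p)).IsPrime :=
    Ideal.map_isPrime_of_surjective Ideal.Quotient.mk_surjective hker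
  refine le_antisymm (Ideal.map_height_le_one_of_mem_minimalPrimes hq) ?_
  rw [Order.one_le_iff_pos, pos_iff_ne_zero]
  intro h0
  rw [Ideal.height_eq_zero_iff, IsDomain.minimalPrimes_eq_singleton_bot] at h0
  have h3 : q.map (Ideal.Quotient.mk p) = ⊥ := h0
  rw [Ideal.map_eq_bot_iff_le_ker, Ideal.mk_ker] at h3
  exact notMem_min hp hx (h3 hxq)

/-- Cyclic modules of projective dimension at most one over arbitrary Noetherian rings. -/
theorem cyclic_iff [IsNoetherianRing R] {p : Ideal R} (hp : p ∈ minimalPrimes R) {x : R}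
    (hx : x ∈ nonZeroDivisors R) :
    (∀ q ∈ (Ideal.span {x}).minimalPrimes, ¬ p ≤ q) ↔
      ∀ q ∈ (p ⊔ Ideal.span {x}).minimalPrimes,
        (q.map (Ideal.Quotient.mk p)).height = 1 ∧ 2 ≤ q.height := by
  have hpP : p.IsPrime := hp.1.1
  constructor
  · intro h q hq
    have hqP : q.IsPrime := hq.1.1
    have hpq : p ≤ q := le_sup_left.trans hq.1.2
    have hxq : x ∈ q := (le_sup_right.trans hq.1.2) (Ideal.mem_span_singleton_self _)
    refine ⟨ht_one hp hx hq, ?_⟩
    · by_contra h2
      have h1 : q.height ≤ 1 := by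
        rw [not_le] at h2
        exact ENat.lt_add_one_iff (by simp) |>.mp (by simpa [one_add_one_eq_two] using h2)
      refine h q ⟨⟨hqP, by rwa [Ideal.span_le, Set.singleton_subset_iff]⟩, ?_⟩ hpq
      rintro q' ⟨hq'P, hxq'⟩ hle
      by_contra hn
      have hlt : q' < q := lt_of_le_not_ge hle hn
      have hP := hq'P
      have hfin : q.FiniteHeight := ⟨Or.inr (h1.trans_lt (WithTop.coe_lt_top 1)).ne⟩
      have h4 : q'.height < q.height := Ideal.height_strict_mono_of_isPrime_of_isPrime hlt
      have h5 := h4.trans_le h1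
      rw [Order.lt_one_iff, Ideal.height_eq_zero_iff] at h5
      exact notMem_min h5 hx (hxq' (Ideal.mem_span_singleton_self _))
  · intro h q hq hpq
    have hqP : q.IsPrime := hq.1.1
    obtain ⟨q', hq', hle⟩ := Ideal.exists_minimalPrimes_le (I := p ⊔ Ideal.span {x}) (J := q)
      (sup_le hpq hq.1.2)
    have h1 := Ideal.height_le_one_of_isPrincipal_of_mem_minimalPrimes _ q hq
    have h2 := (h q' hq').2
    exact absurd ((h2.trans (Ideal.height_mono hle)).trans h1) (by decide)

end Pool.Agent.H23.MPr
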