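import Pool.Agent.H23.MPr.Mech

set_option autoImplicit false

/-!
# All modules of projective dimension at most one
-/

open CategoryTheory IsLocalRing Matrix

namespace Pool.Agent.H23.MPr

universe u

variable {R : Type u} [CommRing R]

/-- the determinant of an injective square matrix over a Noetherian ring is a nonzerodivisor -/
lemma det_nzd [IsNoetherianRing R] {n : ℕ} (A : Matrix (Fin n) (Fin n) R)
    (hA : ∀ v, A *ᵥ v = 0 → v = 0) : A.det ∈ nonZeroDivisors R := by
  by_contra h
  have h1 : A.det ∈ ⋃ p ∈ associatedPrimes R R, (p : Set R) := by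
    rw [biUnion_associatedPrimes_eq_compl_nonZeroDivisors]; exact h
  rw [Set.mem_iUnion₂] at h1
  obtain ⟨P, hP, hd⟩ := h1
  rw [AssociatedPrimes.mem_iff, isAssociatedPrime_iff] at hP
  obtain ⟨hPp, s, hs⟩ := hP
  have hmem : ∀ r, r ∈ P ↔ s * r = 0 := by
    intro r
    rw [hs, Submodule.mem_colon_singleton, Submodule.mem_bot, smul_eq_mul, mul_comm]
  have h2 : (A.map (Ideal.Quotient.mk P)).det = 0 := by
    have := RingHom.map_det (Ideal.Quotient.mk P) A
    rw [RingHom.mapMatrix_apply] at this
    rw [← this, Ideal.Quotient.eq_zero_iff_mem]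
    exact hd
  obtain ⟨v, hv, hv0⟩ := Matrix.exists_mulVec_eq_zero_iff.mpr h2
  choose w hw using fun i => Ideal.Quotient.mk_surjective (I := P) (v i)
  apply hv
  have h3 : A *ᵥ (s • w) = 0 := by
    rw [Matrix.mulVec_smul]
    ext i
    rw [Pi.smul_apply, smul_eq_mul, Pi.zero_apply, ← hmem, ← Ideal.Quotient.eq_zero_iff_mem]
    have h4 := congrFun hv0 i
    simp only [Matrix.mulVec, dotProduct, Matrix.map_apply, Pi.zero_apply] at h4 ⊢
    rw [map_sum]
    simp only [map_mul, hw]
    exact h4
  have h5 := hA _ h3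
  ext i
  have h6 : s * w i = 0 := congrFun h5 i
  rw [← hw i, Pi.zero_apply, Ideal.Quotient.eq_zero_iff_mem, hmem]
  exact h6

/-- Either all minimal primes of the ring are minimal primes of `N`, or `N` has the minimal primes
of `R / δ` for a nonzerodivisor `δ`. -/
theorem pd_one [IsNoetherianRing R] [IsLocalRing R] (N : Type u) [AddCommGroup N] [Module R N]
    [Module.Finite R N] [Nontrivial N] (hN : HasProjectiveDimensionLE (ModuleCat.of R N) 1) :
    (∀ p ∈ minimalPrimes R, p ∈ (Module.annihilator R N).minimalPrimes) ∨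
      ∃ δ ∈ maximalIdeal R, δ ∈ nonZeroDivisors R ∧
        (Module.annihilator R N).minimalPrimes = (Ideal.span {δ}).minimalPrimes := by
  obtain ⟨n, g, hg⟩ := Module.Finite.exists_fin' R N
  let K := LinearMap.ker g
  have hfg : Function.Exact K.subtype g := by
    rw [LinearMap.exact_iff, Submodule.range_subtype]
  have hS := ModuleCat.shortComplex_shortExact
    (ShortComplex.moduleCatMk K.subtype g hfg.linearMap_comp_eq_zero) hfg
    (Submodule.subtype_injective K) hg
  have h1 : HasProjectiveDimensionLT (ModuleCat.of R (Fin n → R)) 1 :=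
    projective_iff_hasProjectiveDimensionLT_one.mp inferInstance
  have h2 : HasProjectiveDimensionLT (ModuleCat.of R K) 1 := hS.hasProjectiveDimensionLT_X₁ 1 h1 hN
  have h3 : Projective (ModuleCat.of R K) := projective_iff_hasProjectiveDimensionLT_one.mpr h2
  have h4 : Module.Projective R K := (IsProjective.iff_projective K).mpr h3
  have h5 : Module.Free R K := Module.free_of_flat_of_isLocalRing
  let b := Module.finBasis R K
  set a := Module.finrank R K
  let φ : (Fin a → R) →ₗ[R] (Fin n → R) := K.subtype ∘ₗ b.equivFun.symm.toLinearMap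
  have hφ : Function.Injective φ :=
    (Submodule.subtype_injective K).comp b.equivFun.symm.injective
  have hr : ∀ v, g v = 0 → ∃ w, φ w = v := fun v hv => by
    refine ⟨b.equivFun ⟨v, hv⟩, ?_⟩
    simp [φ]
  have hr' : ∀ w, g (φ w) = 0 := fun w => (b.equivFun.symm w).2
  have han : a ≤ n := le_of_fin_injective R φ hφ
  have hB : ∀ r ∈ Module.annihilator R N, ∃ B : Matrix (Fin a) (Fin n) R,
      LinearMap.toMatrix' φ * B = r • (1 : Matrix (Fin n) (Fin n) R) := by
    intro r hr0
    rw [Module.mem_annihilator] at hr0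
    choose w hw using fun j : Fin n => hr (r • Pi.single j 1) (by rw [map_smul, hr0])
    refine ⟨Matrix.of fun i j => w j i, ?_⟩
    ext i j
    have h6 : (LinearMap.toMatrix' φ *ᵥ (w j)) i = (r • Pi.single j 1 : Fin n → R) i := by
      rw [LinearMap.toMatrix'_mulVec, hw j]
    have h7 : (LinearMap.toMatrix' φ * Matrix.of fun i j => w j i) i j
        = (LinearMap.toMatrix' φ *ᵥ (w j)) i := rfl
    rw [h7, h6]
    simp [Matrix.one_apply, Pi.single_apply]
  rcases han.lt_or_eq with hlt | heq
  · left
    intro p hp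
    have hpP : p.IsPrime := hp.1.1
    refine ⟨⟨hpP, fun r hr0 => ?_⟩, fun q hq hle => hp.2 ⟨hq.1, bot_le⟩ hle⟩
    by_contra hrp
    obtain ⟨B, hB⟩ := hB r hr0
    let ψ : R →+* FractionRing (R ⧸ p) := (algebraMap (R ⧸ p) _).comp (Ideal.Quotient.mk p)
    have hψ : ψ r ≠ 0 := by
      intro h0
      have h8 : Ideal.Quotient.mk p r = 0 :=
        (map_eq_zero_iff _ (IsFractionRing.injective (R ⧸ p) (FractionRing (R ⧸ p)))).mp h0
      exact hrp (Ideal.Quotient.eq_zero_iff_mem.mp h8)
    have h9 : (LinearMap.toMatrix' φ).map ψ * B.map ψ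
        = ψ r • (1 : Matrix (Fin n) (Fin n) (FractionRing (R ⧸ p))) := by
      rw [← Matrix.map_mul, hB]
      ext i j
      simp only [Matrix.map_apply, Matrix.smul_apply, smul_eq_mul, map_mul, Matrix.one_apply]
      split_ifs <;> simp
    have h10 : (ψ r • (1 : Matrix (Fin n) (Fin n) (FractionRing (R ⧸ p)))).rank = n := by
      have hu : IsUnit (ψ r • (1 : Matrix (Fin n) (Fin n) (FractionRing (R ⧸ p)))) := by
        rw [Matrix.isUnit_iff_isUnit_det, Matrix.det_smul, Matrix.det_one, mul_one]
        exact (IsUnit.mk0 _ hψ).pow _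
      rw [Matrix.rank_of_isUnit _ hu, Fintype.card_fin]
    have h11 := Matrix.rank_mul_le_left ((LinearMap.toMatrix' φ).map ψ) (B.map ψ)
    rw [h9, h10] at h11
    have h12 := Matrix.rank_le_width ((LinearMap.toMatrix' φ).map ψ)
    omega
  · right
    clear_value a
    subst heq
    set A := LinearMap.toMatrix' φ
    have hAv : ∀ v, A *ᵥ v = φ v := fun v => LinearMap.toMatrix'_mulVec φ v
    have hann : ∀ r ∈ Module.annihilator R N, r ^ a ∈ Ideal.span {A.det} := by
      intro r hr0
      obtain ⟨B, hB⟩ := hB r hr0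
      have h6 := congrArg Matrix.det hB
      rw [Matrix.det_mul, Matrix.det_smul, Matrix.det_one, mul_one, Fintype.card_fin] at h6
      rw [← h6]
      exact Ideal.mul_mem_right _ _ (Ideal.mem_span_singleton_self _)
    have hdet : A.det ∈ Module.annihilator R N := by
      rw [Module.mem_annihilator]
      intro y
      obtain ⟨v, rfl⟩ := hg y
      have h6 : A.det • v = φ (A.adjugate *ᵥ v) := by
        rw [← hAv, Matrix.mulVec_mulVec, Matrix.mul_adjugate, Matrix.smul_mulVec, Matrix.one_mulVec]
      rw [← map_smul, h6, hr']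
    refine ⟨A.det, ?_, det_nzd A fun v hv => ?_, ?_⟩
    · rw [IsLocalRing.mem_maximalIdeal, mem_nonunits_iff]
      intro hu
      obtain ⟨y, hy⟩ := exists_ne (0 : N)
      apply hy
      have h6 := (Module.mem_annihilator.mp hdet) y
      exact (hu.smul_eq_zero).mp h6
    · rw [hAv] at hv
      exact hφ (hv.trans (map_zero φ).symm)
    · have h6 : (Module.annihilator R N).radical = (Ideal.span {A.det}).radical := by
        apply le_antisymm
        · rw [Ideal.radical_le_radical_iff]
          intro r hr0
          exact ⟨a, hann r hr0⟩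
        · apply Ideal.radical_mono
          rwa [Ideal.span_le, Set.singleton_subset_iff]
      rw [← Ideal.radical_minimalPrimes, h6, Ideal.radical_minimalPrimes]

end Pool.Agent.H23.MPr
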